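import Pool.Agent.N659.HB.Stm7

/-!
The theorem at every disorder strength for folded laws with a Cauchy component, from the parts of
the project LD.
-/

namespace Pool.Agent.N234.LD.Finl

open MeasureTheory Filter Pool.Agent.W792.LL Pool.Agent.W792.WA Pool.Agent.N659.HB
open scoped Topology ENNReal

noncomputable section

theorem psi_congr {μ ν : Measure ℝ} [IsProbabilityMeasure μ] [IsProbabilityMeasure ν]
    (h : μ = ν) {d : ℕ} (m : C(UnitAddTorus (Fin d), ℂ)) (r : ℝ) (hr : ‖psi μ m‖ ≤ r) :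
    ‖psi ν m‖ ≤ r := by
  subst h
  exact hr

theorem main (hLDC : S_LDC) (hPSIC : S_PSIC) (hFOLD : S_FOLD) (hBDR : S_BDR) : S_LD := by
  intro μ _ W δ hδ hW hμ d a b ε hd hab hε
  set g : ℝ := 4 * d / (b - a) with hg
  have hg0 : 0 < g := by
    have : (0 : ℝ) < d := by exact_mod_cast hd
    have : 0 < b - a := by linarith
    positivity
  have hgm : Measurable fun x : ℝ => g * x := by fun_prop
  haveI : IsProbabilityMeasure (μ.map fun x => g * x) :=
    Measure.isProbabilityMeasure_map hgm.aemeasurable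
  have hδ' : 0 < g * δ := mul_pos hg0 hδ
  have hW' : 0 ≤ g * W := mul_nonneg hg0.le hW
  have hμ' : (μ.map fun x => g * x) (Set.Icc (-(g * W)) (g * W))ᶜ = 0 := by
    rw [Measure.map_apply hgm measurableSet_Icc.compl]
    refine measure_mono_null ?_ hμ
    intro x hx hx'
    apply hx
    simp only [Set.mem_Icc] at hx' ⊢
    constructor
    · nlinarith [hx'.1]
    · exact mul_le_mul_of_nonneg_left hx'.2 hg0.le
  obtain ⟨-, -, -, htend, X, hX, hX'⟩ := hFOLD (μ.map fun x => g * x) (g * δ) hδ'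
  have hq : Real.sqrt (1 - 4 * (g * δ) / ((g * W) ^ 2 + (1 + g * δ) ^ 2)) < 1 := by
    rw [Real.sqrt_lt' one_pos]
    have : 0 < 4 * (g * δ) / ((g * W) ^ 2 + (1 + g * δ) ^ 2) := by positivity
    linarith
  obtain ⟨τ, hτ, hmain⟩ := hLDC d a b ε
    (Real.sqrt (1 - 4 * (g * δ) / ((g * W) ^ 2 + (1 + g * δ) ^ 2))) X hd hab hε
    (Real.sqrt_nonneg _) hq (by
      intro d' m hm
      have h := hPSIC (μ.map fun x => g * x) (g * W) (g * δ) hδ' hW' hμ' d' m hm
      exact psi_congr hX.symm m _ h)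
  have htend' : Tendsto (fun R : ℝ =>
      4 * (cyl (μ.map fun x => g * x) (g * δ) {v | R < |v|}).toReal) atTop (𝓝 (4 * 0)) := by
    refine Tendsto.const_mul 4 ?_
    have h := (ENNReal.tendsto_toReal ENNReal.zero_ne_top).comp htend
    rw [ENNReal.toReal_zero] at h
    exact h
  rw [mul_zero] at htend'
  have hev := (htend'.eventually (gt_mem_nhds (pow_pos hτ 2)))
  obtain ⟨R₁, hR₁⟩ := eventually_atTop.1 hev
  refine ⟨max R₁ 1 / g, by positivity, ?_⟩
  intro R hR
  have hgR : max R₁ 1 ≤ g * R := by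
    rw [div_le_iff₀ hg0] at hR
    linarith [mul_comm R g]
  have hgR0 : 0 < g * R := lt_of_lt_of_le (by positivity) hgR
  have hR0 : 0 < R := by
    by_contra h
    push Not at h
    nlinarith
  obtain ⟨X', hX1, hX2⟩ := hX' (g * R) hgR0
  have hcd : cd X X' ≤ τ ^ 2 := le_trans hX2 (hR₁ (g * R) (le_trans (le_max_left _ _) hgR)).le
  obtain ⟨hfold, hfold2, hfold3, -, -⟩ := hFOLD μ δ hδ
  have hfm : Measurable (fold R) := (hfold R hR0).1
  have hfm' : Measurable (fold (g * R)) := (hfold (g * R) hgR0).1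
  haveI : IsProbabilityMeasure ((cyl μ δ).map (fold R)) :=
    Measure.isProbabilityMeasure_map hfm.aemeasurable
  have hatom : ∀ x : ℝ, ((cyl μ δ).map (fold R)) {x} < 1 := by
    intro x
    obtain ⟨B, -, hB⟩ := hBDR μ W δ R hδ hW hμ hR0
    have := hB {x} (measurableSet_singleton x)
    simp only [Real.volume_singleton, mul_zero, nonpos_iff_eq_zero] at this
    rw [this]
    exact one_pos
  have hmap : (((cyl μ δ).map (fold R)).map fun x => 4 * d / (b - a) * x) = qlaw X' := by
    rw [← hg, hX1, ← hfold3 g hg0, Measure.map_map hgm hfm, Measure.map_map hfm' hgm]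
    congr 1
    funext v
    exact hfold2 g R v hg0 hR0
  obtain ⟨f, hf1, hf2, hf3⟩ := hmain X' ((cyl μ δ).map (fold R)) hcd hatom hmap
  refine ⟨f, hf1, hf2, ?_⟩
  intro ν _ hν
  subst hν
  exact hf3

end

end Pool.Agent.N234.LD.Finl
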